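import Pool.Agent.MWG.Stmts

/-!
Row EDM of block MWG: two letter words of the same shape are described by join prime edges.
-/

set_option autoImplicit false

namespace Pool.Agent.MWG.H24

open Pool.Agent.Helper14_MV Pool.Agent.Helper2_MV Pool.Agent.MVO Pool.Agent.MWL Pool.Agent.MWS
open Pool.Agent.MWG

/-- exchange of the letters `0` and `1` -/
def sw (c : ℕ) : ℕ := if c = 0 then 1 else if c = 1 then 0 else c

theorem sw_sw (c : ℕ) : sw (sw c) = c := by
  unfold sw
  by_cases h0 : c = 0
  · simp [h0]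
  · by_cases h1 : c = 1
    · simp [h1]
    · simp [h0, h1]

theorem sw_inj : Function.Injective sw := fun a b h => by
  rw [← sw_sw a, ← sw_sw b, h]

/-- the exchange in all blocks -/
def swB (B : ℕ → List ℕ) : ℕ → List ℕ := fun j => (B j).map sw

theorem swB_swB (B : ℕ → List ℕ) : swB (swB B) = B := by
  funext j
  unfold swB
  rw [List.map_map]
  have : sw ∘ sw = id := funext sw_sw
  rw [this, List.map_id]

theorem ty_sw (B : ℕ → List ℕ) (c : ℕ) : ty (swB B) c = ty B (sw c) := by
  funext j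
  show ((B j).map sw).count c = (B j).count (sw c)
  have h := List.count_map_of_injective (B j) sw sw_inj (sw c)
  rw [sw_sw] at h
  exact h

theorem mem_sw {B : ℕ → List ℕ} {j c : ℕ} : c ∈ swB B j ↔ sw c ∈ B j := by
  unfold swB
  rw [List.mem_map]
  constructor
  · rintro ⟨a, ha, rfl⟩
    rwa [sw_sw]
  · intro h
    exact ⟨sw c, h, sw_sw c⟩

theorem ns_sw {k c : ℕ} (h : NS k c) : NS k (sw c) := by
  unfold NS sw at *
  split_ifs <;> omega

theorem two_sw {k : ℕ} {B : ℕ → List ℕ} (h : Two01 k B) : Two01 k (swB B) := by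
  intro j hj c hc
  have h1 := h j hj _ (mem_sw.1 hc)
  unfold sw at h1
  split_ifs at h1 <;> omega

theorem blk_sw {k : ℕ} {B : ℕ → List ℕ} (h : BlkOk k B) : BlkOk k (swB B) := by
  intro j hj c hc
  have h1 := ns_sw (h j hj _ (mem_sw.1 hc))
  rwa [sw_sw] at h1

theorem rr_sw {θ : FIC} {k : ℕ} {B B' : ℕ → List ℕ} (h : BlkOk k B) (h' : BlkOk k B')
    (hr : RR θ (asm k B) (asm k B')) : RR θ (asm k (swB B)) (asm k (swB B')) := by
  have h1 := rr_sub θ (fun c => [sw c]) h h' hr
  have e : ∀ B : ℕ → List ℕ, (fun j => (B j).flatMap (fun c => [sw c])) = swB B := by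
    intro B
    funext j
    unfold swB
    rw [List.map_eq_flatMap]
  rw [e, e] at h1
  exact h1

theorem edm (hN : NftStmt) (hS : SmoStmt) (hE : EdaStmt) : EdmStmt := by
  intro β hβ k B B' hB hB' h2 h2' hsh
  by_cases c1 : ∃ i, Vis k (ty B 0) (ty B 1) i
  · obtain ⟨i, hi⟩ := c1
    exact hE β hβ k B B' hB hB' h2 h2' hsh i hi
  by_cases c2 : ∃ i, Vis k (ty B 1) (ty B 0) i
  · obtain ⟨i, hi⟩ := c2
    have hm : ∀ B : ℕ → List ℕ, OkB k B → OkB k (swB B) := by
      intro B hB
      refine ⟨blk_sw hB.ok, ?_⟩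
      intro j hj c hc
      have h1 := hB.ml j hj _ (mem_sw.1 hc)
      show 2 ≤ deg k (ty (swB B) c)
      rw [ty_sw]
      exact h1
    have hsh2 : Shp k (swB B) (swB B') := by
      intro c hc
      rw [ty_sw, ty_sw]
      exact hsh _ (ns_sw hc)
    have hv : Vis k (ty (swB B) 0) (ty (swB B) 1) i := by
      rw [ty_sw, ty_sw]
      exact hi
    obtain ⟨L, hL1, hL2⟩ := hE β hβ k (swB B) (swB B') (hm B hB) (hm B' hB') (two_sw h2)
      (two_sw h2') hsh2 i hv
    refine ⟨L, hL1, fun θ hθ hn => ?_⟩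
    rw [← hL2 θ hθ hn]
    constructor
    · exact rr_sw hB.ok hB'.ok
    · intro h
      have h3 := rr_sw (hm B hB).ok (hm B' hB').ok h
      rwa [swB_swB, swB_swB] at h3
  · have hr : RR β (asm k B) (asm k B') := by
      refine hN β β hβ (fun _ _ h => h) k B B' hB hB' (hS k B B' hB hB' hsh) ?_
      intro x y i hxy hv
      exfalso
      have hi : i ≤ k := hv.1
      have hx : Lf (ty B x) i := hv.2.1
      have hy : ty B y i ≠ 0 := hv.2.2.1
      have hxm : x ∈ B i := List.count_pos_iff.1 (show 0 < (B i).count x by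
        have : (B i).count x = 1 := hx.1
        omega)
      have hym : y ∈ B i := List.count_pos_iff.1 (Nat.pos_of_ne_zero hy)
      rcases h2 i hi x hxm with rfl | rfl
      · rcases h2 i hi y hym with rfl | rfl
        · exact hxy rfl
        · exact c1 ⟨i, hv⟩
      · rcases h2 i hi y hym with rfl | rfl
        · exact c2 ⟨i, hv⟩
        · exact hxy rfl
    refine ⟨[], fun e he => absurd he (by simp), fun θ hθ _ => ?_⟩
    constructor
    · intro _ e he
      exact absurd he (by simp)
    · intro _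
      exact hθ _ _ hr

end Pool.Agent.MWG.H24
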