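import Pool.Agent.MWG.Stmts

/-!
Row FXL of block MWG: `F` gives the left edge if `y` occurs behind block `i`.
-/

set_option autoImplicit false

namespace Pool.Agent.MWG.H24

open Pool.Agent.Helper14_MV Pool.Agent.Helper2_MV Pool.Agent.MVO Pool.Agent.MWL Pool.Agent.MWS
open Pool.Agent.MWG

theorem hm_ne_zero {a : ℕ → ℕ} {j : ℕ} (h : a j ≠ 0) : hm a j ≠ 0 := by
  unfold hm
  rw [if_neg h]
  split_ifs <;> omega

theorem cb_self (a b : ℕ → ℕ) (i : ℕ) (l : List ℕ) : cb a b i l i = l := by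
  unfold cb
  rw [if_pos rfl]

theorem cb_ne (a b : ℕ → ℕ) {i j : ℕ} (h : j ≠ i) (l : List ℕ) :
    cb a b i l j = List.replicate (hm a j) 0 ++ List.replicate (hm b j) 1 := by
  unfold cb
  rw [if_neg h]

theorem fxl (hF : FilStmt) : FxlStmt := by
  intro β θ hβ hle hFF k a b i hR hb hj
  obtain ⟨j, h1, h2, h3⟩ := hj
  have hi : i ≤ k := hR.vis.1
  have e : mL b i = ([1, 1, 0], [1, 1, 0, 1, 1]) := by
    unfold mL
    rw [if_neg hb]
  unfold XL eL
  rw [e]
  show RR θ (asm k (cb a b i [1, 1, 0])) (asm k (cb a b i [1, 1, 0, 1, 1]))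
  have ep : pre (cb a b i [1, 1, 0, 1, 1]) i = pre (cb a b i [1, 1, 0]) i :=
    pre_congr (fun j' hj' => by
      rw [cb_ne a b (show j' ≠ i by omega), cb_ne a b (show j' ≠ i by omega)])
  have es : suf (cb a b i [1, 1, 0, 1, 1]) i (k - i) = suf (cb a b i [1, 1, 0]) i (k - i) :=
    suf_congr (fun j' hj' _ => by
      rw [cb_ne a b (show j' ≠ i by omega), cb_ne a b (show j' ≠ i by omega)])
  rw [asm_split hi, asm_split hi, ep, es, cb_self, cb_self]
  have hmem : 1 ∈ suf (cb a b i [1, 1, 0]) i (k - i) := by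
    refine mem_suf.2 (Or.inr ⟨j, h1, by omega, ?_⟩)
    rw [cb_ne a b (show j ≠ i by omega)]
    exact List.mem_append_right _ (List.mem_replicate.2 ⟨hm_ne_zero h3, rfl⟩)
  have hcnt : 2 ≤ (pre (cb a b i [1, 1, 0]) i ++ [1, 1, 0]).count 1 := by
    rw [List.count_append]
    have : ([1, 1, 0] : List ℕ).count 1 = 2 := by decide
    omega
  have h := hF β θ hβ hle hFF _ _ 1 hcnt hmem
  have e2 : pre (cb a b i [1, 1, 0]) i ++ [1, 1, 0, 1, 1] ++ suf (cb a b i [1, 1, 0]) i (k - i) =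
      (pre (cb a b i [1, 1, 0]) i ++ [1, 1, 0]) ++
        (1 :: 1 :: suf (cb a b i [1, 1, 0]) i (k - i)) := by
    simp
  rw [e2]
  exact h

end Pool.Agent.MWG.H24
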